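import Mathlib
import Pool.Agent.H496.B3.Whit

/-! Bessel inequality on a group; averages over compact groups; the trace of orthogonal matrices. -/

set_option autoImplicit false
set_option linter.unusedSectionVars false

namespace Pool.Agent.H496

open MeasureTheory Set Function Module
open scoped ENNReal NNReal ComplexConjugate

theorem group_bessel {G H : Type*} [Group G] [Countable G] [Group H] [MeasurableSpace H] [MeasurableMul H]
    {ρ : G →* H} {μ : Measure H} [SFinite μ] [μ.IsMulLeftInvariant]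
    {F : Set H} (hF : MeasurableSet F) (hcov : ∀ᵐ h ∂μ, ∃ γ : G, ρ γ * h ∈ F)
    {J : Type*} [Fintype J] [DecidableEq J] {f : J → H → ℂ} (hfm : ∀ j, Measurable (f j))
    (hf : ∀ j γ h, f j (ρ γ * h) = f j h)
    (ho : ∀ i j, ∫ h in F, f i h * conj (f j h) ∂μ = if i = j then 1 else 0)
    {B : Set H} (hB : MeasurableSet B) {κ : H → ℂ} (hκm : Measurable κ) (hκB : ∀ h ∉ B, κ h = 0)
    (hκ : Integrable (fun y => ‖κ y‖ ^ 2) μ) (x : H)
    (hinj : ∀ γ : G, ∀ b ∈ B, x⁻¹ * (ρ γ * (x * b)) ∈ B → γ = 1) :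
    (∀ j, Integrable (fun y => f j (x * y) * κ y) μ) ∧
      ∑ j, ‖∫ y, f j (x * y) * κ y ∂μ‖ ^ 2 ≤ ∫ y, ‖κ y‖ ^ 2 ∂μ := by
  set B' : Set H := (fun z => x⁻¹ * z) ⁻¹' B with hB'
  have hB'm : MeasurableSet B' := (measurable_const_mul x⁻¹) hB
  have hle : ∀ a : J → ℂ, ∫⁻ y in B, ENNReal.ofReal (‖∑ j, a j * f j (x * y)‖ ^ 2) ∂μ ≤
      ENNReal.ofReal 1 * ∫⁻ h in F, ENNReal.ofReal (‖∑ j, a j * f j h‖ ^ 2) ∂μ := by
    intro a
    have hgm : Measurable fun h => ENNReal.ofReal (‖∑ j, a j * f j h‖ ^ 2) :=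
      (((Finset.measurable_sum _ fun j _ => (hfm j).const_mul _).norm).pow_const 2).ennreal_ofReal
    have h1 := unfold_group μ (fun (γ : G) (h : H) => ρ γ * h) (fun h => by simp) (fun γ γ' h => by simp [mul_assoc])
      (fun γ => measurePreserving_mul_left μ (ρ γ)) hB'm hF hgm (fun γ h => by simp_rw [hf])
      (by filter_upwards [hcov] with h hh _ using hh) (M := 1) (fun h _ => by
        refine tsum_le_one_of_unique (fun (γ : G) (h : H) => ρ γ * h) h fun γ γ' h1 h2 => ?_
        have a1 : x⁻¹ * (ρ γ * h) ∈ B := h1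
        have a2 : x⁻¹ * (ρ γ' * h) ∈ B := h2
        have key := hinj (γ' * γ⁻¹) _ a1 (by
          rw [mul_inv_cancel_left, ← mul_assoc (ρ _) (ρ γ), ← map_mul, inv_mul_cancel_right]
          exact a2)
        exact (mul_inv_eq_one.1 key).symm)
    rw [ENNReal.ofReal_one]
    refine le_trans (le_of_eq ?_) h1
    rw [← lintegral_indicator hB, ← lintegral_indicator hB'm,
      ← lintegral_mul_left_eq_self (B'.indicator fun h => ENNReal.ofReal (‖∑ j, a j * f j h‖ ^ 2)) x]
    refine lintegral_congr fun y => ?_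
    by_cases hy : y ∈ B
    · rw [indicator_of_mem hy, indicator_of_mem]
      show x⁻¹ * (x * y) ∈ B
      rwa [inv_mul_cancel_left]
    · rw [indicator_of_notMem hy, indicator_of_notMem]
      intro h'
      have h'' : x⁻¹ * (x * y) ∈ B := h'
      rw [inv_mul_cancel_left] at h''
      exact hy h''
  obtain ⟨h1, h2⟩ := bessel' (μ.restrict F) f hfm ho (μ.restrict B) (fun y => x * y) (measurable_const_mul x)
    zero_le_one hle κ hκm hκ.restrict
  have hz : ∀ j, ∀ y ∉ B, f j (x * y) * κ y = 0 := fun j y hy => by rw [hκB y hy, mul_zero]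
  constructor
  · intro j
    have : Integrable (B.indicator fun y => f j (x * y) * κ y) μ := (integrable_indicator_iff hB).2 (h1 j)
    refine this.congr (Filter.Eventually.of_forall fun y => ?_)
    by_cases hy : y ∈ B
    · rw [indicator_of_mem hy]
    · rw [indicator_of_notMem hy]
      exact (hz j y hy).symm
  · rw [one_mul] at h2
    have e1 : ∀ j, ∫ y in B, f j (x * y) * κ y ∂μ = ∫ y, f j (x * y) * κ y ∂μ := fun j =>
      setIntegral_eq_integral_of_forall_compl_eq_zero fun y hy => hz j y hy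
    have e2 : ∫ y in B, ‖κ y‖ ^ 2 ∂μ = ∫ y, ‖κ y‖ ^ 2 ∂μ :=
      setIntegral_eq_integral_of_forall_compl_eq_zero fun y hy => by rw [hκB y hy]; simp
    simp_rw [e1, e2] at h2
    exact h2

/-- An orthogonal matrix with trace `N` is the identity. -/
theorem orth_trace {N : ℕ} {A : Matrix (Fin N) (Fin N) ℝ} (hA : A.transpose * A = 1) (ht : A.trace = N) : A = 1 := by
  have h1 : ((A - 1).transpose * (A - 1)).trace = 0 := by
    have : (A - 1).transpose * (A - 1) = A.transpose * A - A.transpose - A + 1 := by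
      rw [Matrix.transpose_sub, Matrix.transpose_one]
      noncomm_ring
    rw [this, hA, Matrix.trace_add, Matrix.trace_sub, Matrix.trace_sub, Matrix.trace_one, Matrix.trace_transpose, ht]
    simp
  have h2 : ∀ i j, (A - 1) j i = 0 := by
    rw [Matrix.trace] at h1
    simp only [Matrix.diag_apply, Matrix.mul_apply, Matrix.transpose_apply] at h1
    intro i j
    have h3 := (Finset.sum_eq_zero_iff_of_nonneg (fun i _ => Finset.sum_nonneg fun j _ =>
      mul_self_nonneg ((A - 1) j i))).1 h1 i (Finset.mem_univ _)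
    have h4 := (Finset.sum_eq_zero_iff_of_nonneg (fun j _ => mul_self_nonneg ((A - 1) j i))).1 h3 j
      (Finset.mem_univ _)
    exact mul_self_eq_zero.1 h4
  have : A - 1 = 0 := by
    ext i j
    exact h2 j i
  exact sub_eq_zero.1 this

/-- Convolution with a conjugation invariant set in a compact group. -/
theorem avg_ball {C : Type*} [Group C] [MeasurableSpace C] [MeasurableMul₂ C] [MeasurableInv C] (μ : Measure C)
    [IsProbabilityMeasure μ] [μ.IsMulLeftInvariant] [μ.IsMulRightInvariant] {B₀ : Set C} (hB₀ : MeasurableSet B₀)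
    (hconj : ∀ y, ∀ z ∈ B₀, y * z * y⁻¹ ∈ B₀) {f : C → ℂ} (hfm : Measurable f) (hf : Integrable f μ) {χ : C → ℂ} (c : C)
    {w : ℂ} (h : ∀ z, ∫ y, f (c * (y * z * y⁻¹)) ∂μ = χ z * w) :
    ∫ z in B₀, f (c * z) ∂μ = (∫ z in B₀, χ z ∂μ) * w := by
  have hg : Integrable (fun z => f (c * z)) μ :=
    (measurePreserving_mul_left μ c).integrable_comp_of_integrable hf
  set g : C → ℂ := B₀.indicator fun z => f (c * z) with hgdef
  have hgm : Measurable g := (hfm.comp (measurable_const_mul c)).indicator hB₀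
  have hgi : Integrable g μ := hg.indicator hB₀
  have hgc : ∀ y z, g (y * z * y⁻¹) = B₀.indicator (fun z => f (c * (y * z * y⁻¹))) z := by
    intro y z
    by_cases hz : z ∈ B₀
    · rw [hgdef, indicator_of_mem hz, indicator_of_mem (hconj y z hz)]
    · rw [hgdef, indicator_of_notMem hz, indicator_of_notMem]
      intro hcon
      apply hz
      have := hconj y⁻¹ _ hcon
      have e : y⁻¹ * (y * z * y⁻¹) * y⁻¹⁻¹ = z := by group
      rwa [e] at this
  have hci : ∀ y, ∫ z, g (y * z * y⁻¹) ∂μ = ∫ z, g z ∂μ := by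
    intro y
    have h1 := integral_mul_left_eq_self (μ := μ) (fun z => g (z * y⁻¹)) y
    rw [h1]
    exact integral_mul_right_eq_self g y⁻¹
  have hmap : Measurable fun p : C × C => p.1 * p.2 * p.1⁻¹ :=
    (measurable_fst.mul measurable_snd).mul measurable_fst.inv
  have hG : Integrable (fun p : C × C => g (p.1 * p.2 * p.1⁻¹)) (μ.prod μ) := by
    have hmeas : AEStronglyMeasurable (fun p : C × C => g (p.1 * p.2 * p.1⁻¹)) (μ.prod μ) :=
      (hgm.comp hmap).aestronglyMeasurable
    rw [integrable_prod_iff hmeas]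
    have hmp : ∀ y, MeasurePreserving (fun z => y * z * y⁻¹) μ μ := fun y =>
      (measurePreserving_mul_right μ y⁻¹).comp (measurePreserving_mul_left μ y)
    refine ⟨Filter.Eventually.of_forall fun y => (hmp y).integrable_comp_of_integrable hgi, ?_⟩
    have e : ∀ y, ∫ z, ‖g (y * z * y⁻¹)‖ ∂μ = ∫ z, ‖g z‖ ∂μ := by
      intro y
      have h1 := integral_mul_left_eq_self (μ := μ) (fun z => ‖g (z * y⁻¹)‖) y
      rw [h1]
      exact integral_mul_right_eq_self (fun z => ‖g z‖) y⁻¹
    simp_rw [e]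
    exact integrable_const _
  have h1 : ∫ y, ∫ z, g (y * z * y⁻¹) ∂μ ∂μ = ∫ z, g z ∂μ := by
    simp_rw [hci]
    simp
  rw [integral_integral_swap hG] at h1
  rw [← integral_indicator hB₀]
  show ∫ z, g z ∂μ = _
  rw [← h1, ← integral_mul_const, ← integral_indicator hB₀]
  refine integral_congr_ae (Filter.Eventually.of_forall fun z => ?_)
  show ∫ y, g (y * z * y⁻¹) ∂μ = B₀.indicator (fun z => χ z * w) z
  simp_rw [hgc]
  by_cases hz : z ∈ B₀
  · simp_rw [indicator_of_mem hz]
    exact h z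
  · simp_rw [indicator_of_notMem hz]
    exact integral_zero _ _

end Pool.Agent.H496
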