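import Mathlib
import Pool.Agent.H496.B1.Grp

/-! The weight aspect for groups which are compact at a real place. -/

set_option autoImplicit false
set_option linter.unusedSectionVars false

namespace Pool.Agent.H496

open MeasureTheory Set Function Module
open scoped ENNReal NNReal ComplexConjugate

section
variable {k V : Type*} [Field k] {L : V → Type*} [∀ v, NormedField (L v)] {e : ∀ v, k →+* L v}
variable {G H C : Type*} [Group G] [Group H] [MeasurableSpace H] [Group C] [MeasurableSpace C]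

/-- `N - tr` is small on `B B⁻¹`. -/
def TraceSmall {N : ℕ} {X : Type*} [Group X] (τ : ∀ v, X →* Matrix (Fin N) (Fin N) (L v)) (B : Set X) : Prop :=
  ∃ c : V → ℝ, IsSmall c ∧ ∀ b ∈ B, ∀ b' ∈ B, ∀ v, ‖(N : L v) - (τ v (b' * b⁻¹)).trace‖ ≤ c v

theorem trace_inj (he : ProductFormula e) {N : ℕ} {X : Type*} [Group X] {r : G →* Matrix (Fin N) (Fin N) k}
    (hr : Injective r) {ρ : G →* X} {τ : ∀ v, X →* Matrix (Fin N) (Fin N) (L v)}
    (hτ : ∀ v γ, τ v (ρ γ) = (r γ).map (e v)) {e₀ : k →+* ℝ}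
    (horth : ∀ γ, ((r γ).map e₀).transpose * (r γ).map e₀ = 1) {B : Set X} (hB : TraceSmall τ B) (x : X) :
    ∀ γ : G, ∀ b ∈ B, x⁻¹ * (ρ γ * (x * b)) ∈ B → γ = 1 := by
  intro γ b hb hb'
  obtain ⟨c, hc1, hc2⟩ := hB
  have h1 : (N : k) - (r γ).trace = 0 := by
    refine eq_zero_of_small he hc1 fun v => ?_
    have e1 : e v ((N : k) - (r γ).trace) = (N : L v) - (τ v (x⁻¹ * (ρ γ * (x * b)) * b⁻¹)).trace := by
      have e2 : x⁻¹ * (ρ γ * (x * b)) * b⁻¹ = x⁻¹ * ρ γ * x := by group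
      rw [e2, map_sub, map_natCast, map_mul, map_mul, Matrix.trace_mul_comm, ← mul_assoc, ← map_mul, mul_inv_cancel,
        map_one, one_mul, hτ]
      congr 1
      exact map_sum (e v) (fun i => r γ i i) Finset.univ
    rw [e1]
    exact hc2 b hb _ hb' v
  have h2 : (r γ).trace = N := (sub_eq_zero.1 h1).symm
  have h3 : ((r γ).map e₀).trace = N := by
    have : ((r γ).map e₀).trace = e₀ (r γ).trace := (map_sum e₀ (fun i => r γ i i) Finset.univ).symm
    rw [this, h2, map_natCast]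
  have h4 := orth_trace (horth γ) h3
  apply hr
  rw [map_one]
  ext i j
  have h5 := congrFun (congrFun h4 i) j
  rw [Matrix.map_apply] at h5
  apply e₀.injective
  rw [h5, Matrix.one_apply, Matrix.one_apply]
  split_ifs <;> simp

instance [MeasurableMul H] [MeasurableMul C] : MeasurableMul (H × C) where
  measurable_const_mul c := by
    refine Measurable.prodMk ?_ ?_
    · exact (measurable_const_mul c.1).comp measurable_fst
    · exact (measurable_const_mul c.2).comp measurable_snd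
  measurable_mul_const c := by
    refine Measurable.prodMk ?_ ?_
    · exact (measurable_mul_const c.1).comp measurable_fst
    · exact (measurable_mul_const c.2).comp measurable_snd

theorem weight_bessel [Countable G] [MeasurableMul H] [MeasurableMul₂ C] [MeasurableInv C] (he : ProductFormula e)
    {N : ℕ} {r : G →* Matrix (Fin N) (Fin N) k} (hr : Injective r) {ρ : G →* H × C}
    {τ : ∀ v, H × C →* Matrix (Fin N) (Fin N) (L v)}
    (hτ : ∀ v γ, τ v (ρ γ) = (r γ).map (e v)) {e₀ : k →+* ℝ}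
    (horth : ∀ γ, ((r γ).map e₀).transpose * (r γ).map e₀ = 1)
    {μ : Measure H} [SFinite μ] [μ.IsMulLeftInvariant] {μC : Measure C} [IsProbabilityMeasure μC]
    [μC.IsMulLeftInvariant] [μC.IsMulRightInvariant]
    {F : Set (H × C)} (hF : MeasurableSet F) (hcov : ∀ᵐ h ∂(μ.prod μC), ∃ γ : G, ρ γ * h ∈ F)
    {J : Type*} [Fintype J] [DecidableEq J] {f : J → H × C → ℂ} (hfm : ∀ j, Measurable (f j))
    (hf : ∀ j γ h, f j (ρ γ * h) = f j h)
    (ho : ∀ i j, ∫ h in F, f i h * conj (f j h) ∂(μ.prod μC) = if i = j then 1 else 0)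
    {B₁ : Set H} (hB₁ : MeasurableSet B₁) {B₀ : Set C} (hB₀ : MeasurableSet B₀) (hpos : μC B₀ ≠ 0)
    (hconj : ∀ y, ∀ z ∈ B₀, y * z * y⁻¹ ∈ B₀) (hsmall : TraceSmall τ (B₁ ×ˢ B₀))
    {χ : J → C → ℂ} (hχm : ∀ j, Measurable (χ j)) (hχ : ∀ j h c z, ∫ y, f j (h, c * (y * z * y⁻¹)) ∂μC = χ j z * f j (h, c))
    (hfi : ∀ j h, Integrable (fun c => f j (h, c)) μC) (hχ1 : ∀ j, ∀ z ∈ B₀, ‖χ j z - 1‖ ≤ 1 / 2)
    {κ : H → ℂ} (hκm : Measurable κ) (hκB : ∀ h ∉ B₁, κ h = 0)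
    (hκ : Integrable (fun y => ‖κ y‖ ^ 2) μ) {Λ : J → ℂ}
    (hΛ : ∀ j h c, ∫ y, f j (h * y, c) * κ y ∂μ = Λ j * f j (h, c)) (x : H × C) :
    ∑ j, ‖Λ j‖ ^ 2 * ‖f j x‖ ^ 2 ≤ 4 * (∫ y, ‖κ y‖ ^ 2 ∂μ) / μC.real B₀ := by
  set w : ℝ := μC.real B₀ with hw
  have hw0 : 0 < w := by
    rw [hw, measureReal_def, ENNReal.toReal_pos_iff]
    exact ⟨pos_iff_ne_zero.2 hpos, measure_lt_top _ _⟩
  -- the kernel
  set K : H × C → ℂ := fun p => κ p.1 * B₀.indicator (fun _ => (1 : ℂ)) p.2 with hK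
  have hKm : Measurable K := (hκm.comp measurable_fst).mul ((measurable_const.indicator hB₀).comp measurable_snd)
  have hKB : ∀ h ∉ B₁ ×ˢ B₀, K h = 0 := by
    intro h hh
    by_cases h1 : h.1 ∈ B₁
    · have h2 : h.2 ∉ B₀ := fun h2 => hh ⟨h1, h2⟩
      show κ h.1 * B₀.indicator (fun _ => (1 : ℂ)) h.2 = 0
      rw [indicator_of_notMem h2, mul_zero]
    · show κ h.1 * B₀.indicator (fun _ => (1 : ℂ)) h.2 = 0
      rw [hκB _ h1, zero_mul]
  have hKn : ∀ p, ‖K p‖ ^ 2 = ‖κ p.1‖ ^ 2 * B₀.indicator (fun _ => (1 : ℝ)) p.2 := by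
    intro p
    show ‖κ p.1 * B₀.indicator (fun _ => (1 : ℂ)) p.2‖ ^ 2 = _
    by_cases h : p.2 ∈ B₀
    · rw [indicator_of_mem h, indicator_of_mem h]; simp
    · rw [indicator_of_notMem h, indicator_of_notMem h]; simp
  have hind : Integrable (B₀.indicator fun _ => (1 : ℝ)) μC := (integrable_const 1).indicator hB₀
  have hKi : Integrable (fun p => ‖K p‖ ^ 2) (μ.prod μC) := by
    simp_rw [hKn]
    exact hκ.mul_prod hind
  have hKval : ∫ p, ‖K p‖ ^ 2 ∂(μ.prod μC) = (∫ y, ‖κ y‖ ^ 2 ∂μ) * w := by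
    simp_rw [hKn]
    rw [integral_prod_mul (fun y => ‖κ y‖ ^ 2) (B₀.indicator fun _ => (1 : ℝ)), integral_indicator hB₀]
    simp [hw]
  obtain ⟨h1, h2⟩ := group_bessel hF hcov hfm hf ho (hB₁.prod hB₀) hKm hKB hKi x
    (trace_inj he hr hτ horth hsmall x)
  -- evaluation
  have hin : ∀ j h c, ∫ z, f j (h, c * z) * B₀.indicator (fun _ => (1 : ℂ)) z ∂μC =
      (∫ z in B₀, χ j z ∂μC) * f j (h, c) := by
    intro j h c
    have hm1 : Measurable fun c => f j (h, c) := (hfm j).comp measurable_prodMk_left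
    rw [← avg_ball μC hB₀ hconj hm1 (hfi j h) c (fun z => hχ j h c z), ← integral_indicator hB₀]
    refine integral_congr_ae (Filter.Eventually.of_forall fun z => ?_)
    show f j (h, c * z) * B₀.indicator (fun _ => (1 : ℂ)) z = B₀.indicator (fun z => f j (h, c * z)) z
    by_cases hz : z ∈ B₀
    · rw [indicator_of_mem hz, indicator_of_mem hz, mul_one]
    · rw [indicator_of_notMem hz, indicator_of_notMem hz, mul_zero]
  have hval : ∀ j, ∫ p, f j (x * p) * K p ∂(μ.prod μC) = (∫ z in B₀, χ j z ∂μC) * (Λ j * f j x) := by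
    intro j
    rw [integral_prod _ (h1 j)]
    have e1 : ∀ y, ∫ z, f j (x * (y, z)) * K (y, z) ∂μC =
        (∫ z in B₀, χ j z ∂μC) * (f j (x.1 * y, x.2) * κ y) := by
      intro y
      have := hin j (x.1 * y) x.2
      calc ∫ z, f j (x * (y, z)) * K (y, z) ∂μC =
          ∫ z, κ y * (f j (x.1 * y, x.2 * z) * B₀.indicator (fun _ => (1 : ℂ)) z) ∂μC := by
            refine integral_congr_ae (Filter.Eventually.of_forall fun z => ?_)
            show f j (x.1 * y, x.2 * z) * (κ y * B₀.indicator (fun _ => (1 : ℂ)) z) =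
              κ y * (f j (x.1 * y, x.2 * z) * B₀.indicator (fun _ => (1 : ℂ)) z)
            ring
        _ = κ y * ((∫ z in B₀, χ j z ∂μC) * f j (x.1 * y, x.2)) := by rw [integral_const_mul, this]
        _ = _ := by ring
    simp_rw [e1]
    rw [integral_const_mul, hΛ j x.1 x.2]
  have hη : ∀ j, w / 2 ≤ ‖∫ z in B₀, χ j z ∂μC‖ := by
    intro j
    have hbd : ∀ z ∈ B₀, ‖χ j z‖ ≤ 3 / 2 := by
      intro z hz
      calc ‖χ j z‖ = ‖(χ j z - 1) + 1‖ := by ring_nf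
        _ ≤ ‖χ j z - 1‖ + ‖(1 : ℂ)‖ := norm_add_le _ _
        _ ≤ 1 / 2 + 1 := by
            have := hχ1 j z hz
            rw [norm_one]; linarith
        _ = 3 / 2 := by norm_num
    have hi : IntegrableOn (χ j) B₀ μC := by
      refine Integrable.mono' (integrable_const (3 / 2 : ℝ)) (hχm j).aestronglyMeasurable ?_
      exact (ae_restrict_iff' hB₀).2 (Filter.Eventually.of_forall hbd)
    have e1 : ∫ z in B₀, (χ j z - 1) ∂μC = (∫ z in B₀, χ j z ∂μC) - (w : ℂ) := by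
      rw [integral_sub hi (integrable_const (1 : ℂ))]
      simp [hw]
    have e2 : ‖∫ z in B₀, (χ j z - 1) ∂μC‖ ≤ 1 / 2 * w :=
      norm_setIntegral_le_of_norm_le_const (measure_lt_top _ _) fun z hz => hχ1 j z hz
    rw [e1] at e2
    have e3 : ‖(w : ℂ)‖ = w := by rw [Complex.norm_real, Real.norm_of_nonneg hw0.le]
    have e4 : ‖(w : ℂ)‖ ≤ ‖∫ z in B₀, χ j z ∂μC‖ + ‖(∫ z in B₀, χ j z ∂μC) - (w : ℂ)‖ := by
      have := norm_sub_le (∫ z in B₀, χ j z ∂μC) ((∫ z in B₀, χ j z ∂μC) - (w : ℂ))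
      simpa using this
    rw [e3] at e4
    linarith
  simp_rw [hval, hKval] at h2
  have h3 : ∑ j, (w / 2) ^ 2 * (‖Λ j‖ ^ 2 * ‖f j x‖ ^ 2) ≤ (∫ y, ‖κ y‖ ^ 2 ∂μ) * w := by
    refine le_trans (Finset.sum_le_sum fun j _ => ?_) h2
    rw [norm_mul, norm_mul, mul_pow, mul_pow]
    have := hη j
    gcongr
  rw [← Finset.mul_sum] at h3
  rw [le_div_iff₀ hw0]
  have h4 : w * (w / 4 * ∑ j, ‖Λ j‖ ^ 2 * ‖f j x‖ ^ 2) ≤ w * (∫ y, ‖κ y‖ ^ 2 ∂μ) := by
    calc w * (w / 4 * ∑ j, ‖Λ j‖ ^ 2 * ‖f j x‖ ^ 2) = (w / 2) ^ 2 * ∑ j, ‖Λ j‖ ^ 2 * ‖f j x‖ ^ 2 := by ring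
      _ ≤ _ := h3
      _ = _ := by ring
  have h5 := le_of_mul_le_mul_left h4 hw0
  linarith

end

end Pool.Agent.H496

namespace Pool.Agent.H496

open MeasureTheory Set Function Module
open scoped ENNReal NNReal ComplexConjugate

theorem integrated' {X J : Type*} [MeasurableSpace X] [Fintype J] [DecidableEq J] (μ : Measure X) {F : Set X}
    (hF : MeasurableSet F) (hfin : μ F ≠ ∞) (f : J → X → ℂ)
    (ho : ∀ i j, ∫ h in F, f i h * conj (f j h) ∂μ = if i = j then 1 else 0) (w : J → ℝ) {C : ℝ}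
    (hle : ∀ p, ∑ j, w j * ‖f j p‖ ^ 2 ≤ C) : ∑ j, w j ≤ C * μ.real F := by
  have hself : ∀ j, ∫ p in F, ‖f j p‖ ^ 2 ∂μ = 1 ∧ IntegrableOn (fun p => ‖f j p‖ ^ 2) F μ := by
    intro j
    have h1 := ho j j
    rw [if_pos rfl] at h1
    have h2 : ∀ p, f j p * conj (f j p) = ((‖f j p‖ ^ 2 : ℝ) : ℂ) := by
      intro p
      rw [Complex.mul_conj, Complex.normSq_eq_norm_sq]
    simp_rw [h2] at h1
    have h4 : IntegrableOn (fun p => ‖f j p‖ ^ 2) F μ := by
      by_contra hn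
      have h5 : ¬ Integrable (fun p => ((‖f j p‖ ^ 2 : ℝ) : ℂ)) (μ.restrict F) := fun h => hn (by
        have := h.re
        exact this)
      rw [integral_undef h5] at h1
      exact zero_ne_one h1
    refine ⟨?_, h4⟩
    rw [integral_complex_ofReal] at h1
    exact_mod_cast h1
  have h1 : ∫ p in F, ∑ j, w j * ‖f j p‖ ^ 2 ∂μ = ∑ j, w j := by
    rw [integral_finsetSum _ fun j _ => (hself j).2.const_mul _]
    refine Finset.sum_congr rfl fun j _ => ?_
    rw [integral_const_mul, (hself j).1, mul_one]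
  have h2 : IntegrableOn (fun p => ∑ j, w j * ‖f j p‖ ^ 2) F μ :=
    integrable_finsetSum _ fun j _ => (hself j).2.const_mul _
  have h3 : ∫ p in F, ∑ j, w j * ‖f j p‖ ^ 2 ∂μ ≤ ∫ p in F, C ∂μ :=
    setIntegral_mono_on h2 (integrableOn_const hfin) hF fun p _ => hle p
  rw [h1, setIntegral_const, smul_eq_mul, mul_comm] at h3
  exact h3

end Pool.Agent.H496
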